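import Pool.Agent.H73.NK.Targets

/-!
Module SO of board nk_modules (MP_0cd084_nt): solutions from factorisations.
-/

set_option autoImplicit false

namespace Pool.Agent.H51.NK.SO

open Pool.Agent.H73.NK

theorem two_pow_card_le (l : Multiset ℕ) : (∀ a ∈ l, 2 ≤ a) → 2 ^ (Multiset.card l) ≤ l.prod := by
  induction l using Multiset.induction_on with
  | empty => intro _; simp
  | cons a s ih =>
    intro h
    have ha : 2 ≤ a := h a (Multiset.mem_cons_self a s)
    have hs : 2 ^ (Multiset.card s) ≤ s.prod :=
      ih (fun b hb => h b (Multiset.mem_cons_of_mem hb))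
    rw [Multiset.card_cons, Multiset.prod_cons, pow_succ, mul_comm]
    exact Nat.mul_le_mul ha hs

theorem card_le_sum (l : Multiset ℕ) : (∀ a ∈ l, 2 ≤ a) → Multiset.card l ≤ l.sum := by
  induction l using Multiset.induction_on with
  | empty => intro _; simp
  | cons a s ih =>
    intro h
    have ha : 2 ≤ a := h a (Multiset.mem_cons_self a s)
    have hs : Multiset.card s ≤ s.sum :=
      ih (fun b hb => h b (Multiset.mem_cons_of_mem hb))
    rw [Multiset.card_cons, Multiset.sum_cons]
    omega

/-- SO. Solutions from factorisations. -/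
theorem so : T_SO := by
  intro l q k hl hprod hq hk hdvd
  obtain ⟨c, hc⟩ := hdvd
  have h1 := two_pow_card_le l hl
  have h2 := card_le_sum l hl
  have h3 : Multiset.card l < 2 ^ (Multiset.card l) := Nat.lt_two_pow_self
  have h4 : Multiset.card l ≤ q := by omega
  have h5 : q + 1 ≤ k := by nlinarith
  have hcq : q + 1 < c := by
    by_contra hcon
    push Not at hcon
    have h6 : q * c ≤ q * (q + 1) := Nat.mul_le_mul_left q hcon
    have h7 : (q + 2) ^ 2 ≤ q * (q + 1) + 1 := by omega
    nlinarith
  refine ⟨l + {c} + Multiset.replicate (k - 1 - Multiset.card l) 1, ⟨?_, ?_, ?_⟩, c, ?_, ?_, hcq⟩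
  · simp only [Multiset.card_add, Multiset.card_singleton, Multiset.card_replicate]
    omega
  · intro a ha
    rw [Multiset.mem_add, Multiset.mem_add, Multiset.mem_singleton] at ha
    rcases ha with (ha | ha) | ha
    · have := hl a ha; omega
    · omega
    · have := Multiset.eq_of_mem_replicate ha; omega
  · simp only [Multiset.prod_add, Multiset.sum_add, Multiset.prod_singleton,
      Multiset.sum_singleton, Multiset.prod_replicate, Multiset.sum_replicate, one_pow, mul_one,
      smul_eq_mul, hprod]
    have h8 : (q + 1) * c = q * c + c := by ring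
    rw [h8, ← hc]
    omega
  · rw [Multiset.mem_add, Multiset.mem_add, Multiset.mem_singleton]
    exact Or.inl (Or.inr rfl)
  · simp only [Multiset.prod_add, Multiset.prod_singleton, Multiset.prod_replicate, one_pow,
      mul_one, hprod]
    ring

end Pool.Agent.H51.NK.SO
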